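import Pool.Agent.MP_6c7bdb_gt.FI.Lower
import Pool.Agent.MP_6c7bdb_gt.FI.Outer

namespace Pool.Agent.Results.MP_6c7bdb_gt.FirstIntegrals

open scoped MatrixGroups
open Pool.Agent.HZ64

/-- Above the horocycle level, the supremum of `max F` over the admissible functions `F` on `{H < a}` that Poisson
commute with `H` is exactly `2 π + s √(a - 1)`, where `s` is the systole. -/
theorem result (Γ : Subgroup SL(2, ℝ)) (hΓ : IsSurfaceGroup Γ) (s : ℝ) (hs : IsGLB (lengths Γ) s)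
    (a : ℝ) (ha : 1 < a) :
    IsLUB {c : ℝ | ∃ F : ℂ × ℂ → ℝ, Admissible Γ a F c ∧ Commutes F} (2 * Real.pi + s * √(a - 1)) := by
  have hρ : 0 < √(a - 1) := Real.sqrt_pos.2 (by linarith)
  constructor
  · rintro c ⟨F, hA, hC⟩
    have h1 : (c - 2 * Real.pi) / √(a - 1) ≤ s := hs.2 fun l hl => by
      rw [div_le_iff₀ hρ]
      linarith [upper hΓ ha hA hC hl]
    rw [div_le_iff₀ hρ] at h1
    linarith
  · intro b hb
    by_contra hlt
    obtain ⟨F, c, h1, h2, h3⟩ := lower hΓ (hs.2 fun l hl => hl.1.le) hs.1 ha (not_le.1 hlt)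
    exact absurd (hb ⟨F, h2, h3⟩) (not_le.2 h1)

end Pool.Agent.Results.MP_6c7bdb_gt.FirstIntegrals
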