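import Pool.Agent.MP_6c7bdb_gt.MB.Sys

namespace Pool.Agent.Results.MP_6c7bdb_gt.MagneticBilliard

open scoped MatrixGroups UpperHalfPlane
open Pool.Agent.HZ64

/-- Lower bound for the Hofer-Zehnder capacity above the horocycle level by the action of the two bounce magnetic
billiard orbit in an embedded disc of radius `R`; on a closed surface `R` can be half the systole. -/
theorem result (Γ : Subgroup SL(2, ℝ)) (z₀ : ℍ) (R a c₀ : ℝ) (hR : 0 < R) (ha : 1 < a)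
    (hΓ : (∀ γ ∈ Γ, γ ≠ 1 → γ ≠ -1 → 2 * R ≤ dist z₀ (γ • z₀)) ∨
      (IsSurfaceGroup Γ ∧ ∀ l ∈ lengths Γ, 2 * R ≤ l))
    (hc : c₀ < 4 * √(a - 1) * Real.arsinh (√(1 - 1 / a) * Real.sinh R) + 4 * Real.arcsin (Real.tanh R / √a)) :
    ∃ (F : ℂ × ℂ → ℝ) (c r : ℝ), c₀ < c ∧ r < R ∧ Admissible Γ a F c ∧
      ∀ (z : ℍ) (p : ℂ), F (z, p) ≠ 0 → ∃ γ ∈ Γ, dist z (γ • z₀) < r := by
  refine Pool.Agent.HZ42.lower_disc Γ z₀ hR ha ?_ (by rwa [Pool.Agent.HZ42.PhiP_eq R ha])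
  rcases hΓ with h | h
  · exact h
  · exact fun γ hγ h1 h2 => Pool.Agent.HZ42.sys_le_disp h.1 h.2 hγ h1 h2 z₀

end Pool.Agent.Results.MP_6c7bdb_gt.MagneticBilliard
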