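import Pool.Agent.MP_6c7bdb_gt.FI.Cut

namespace Pool.Agent.Results.MP_6c7bdb_gt.Scaling

open scoped MatrixGroups
open Pool.Agent.HZ64

/-- Scaling about the horocycle level. An admissible function on `{H < a}` with maximum `c` and values in `[u, v]`
on `{H ≤ η}` gives, for every `c' < c - (v - u)`, an admissible function on `{H < 1 + t ^ 2 (a - 1)}` with maximum
`t c'` that is constant on a neighbourhood `{H < h}` of `{H ≤ 1 + t ^ 2 (η - 1)}`. -/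
theorem result (Γ : Subgroup SL(2, ℝ)) (hΓ : IsSurfaceGroup Γ) (a η t c c' u v : ℝ) (F : ℂ × ℂ → ℝ)
    (hη : 0 ≤ η) (ha : η < a) (ht : 0 < t) (htη : t ^ 2 * (1 - η) ≤ 1) (hF : Admissible Γ a F c)
    (huv : ∀ w ∈ phase, kin w ≤ η → u ≤ F w ∧ F w ≤ v) (h0 : 0 ≤ c') (hc : c' < c - (v - u)) :
    ∃ (G : ℂ × ℂ → ℝ) (k h : ℝ), Admissible Γ (1 + t ^ 2 * (a - 1)) G (t * c') ∧ 1 + t ^ 2 * (η - 1) < h ∧
      ∀ w ∈ phase, kin w < h → G w = k := by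
  obtain ⟨w₀, hw₀, hk₀⟩ := exists_kin (le_refl 0)
  have huv' : u ≤ v := (huv w₀ hw₀ (by rw [hk₀]; exact hη)).1.trans (huv w₀ hw₀ (by rw [hk₀]; exact hη)).2
  obtain ⟨ε, hε, hεc⟩ : ∃ ε : ℝ, 0 < ε ∧ c' < c - (v + ε - (u - ε)) :=
    ⟨(c - (v - u) - c') / 4, by linarith, by linarith⟩
  obtain ⟨η', e1, e2, e3⟩ := exists_collar hΓ hF ha hε huv
  obtain ⟨χ, k, f1, f2, f3, f4, f5⟩ := exists_flat (p := u - ε) (q := v + ε) (by linarith) h0 hεc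
  have ht2 : 0 < t ^ 2 := by positivity
  have hA := hF.cut f1 f2 f4
  rw [f3] at hA
  obtain ⟨G, g1, g2⟩ := scale (η := η') (k := k) (by linarith) e2 ht (by nlinarith) hA
    fun w hw hlt => f5 _ (e3 w hw hlt).1 (e3 w hw hlt).2
  exact ⟨G, t * k, 1 + t ^ 2 * (η' - 1), g1, by nlinarith, g2⟩

end Pool.Agent.Results.MP_6c7bdb_gt.Scaling
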